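import Pool.Agent.Helper28_TP.DyS
import Pool.Agent.Helper28_TP.Inst

/-! # Squad TP, module LF: the Laplace functional -/

set_option autoImplicit false

namespace Pool.Agent.TP.H76

open MeasureTheory ProbabilityTheory

/-- The integral of a finite product over independent coordinates. -/
theorem lint_prod {ι : Type} {Ω : ι → Type} [∀ i, MeasurableSpace (Ω i)]
    (P : (i : ι) → Measure (Ω i)) [∀ i, IsProbabilityMeasure (P i)]
    (s : Finset ι) (f : (i : ι) → Ω i → ENNReal) (hf : ∀ i, Measurable (f i)) :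
    ∫⁻ ω, ∏ i ∈ s, f i (ω i) ∂(Measure.infinitePi P) = ∏ i ∈ s, ∫⁻ x, f i x ∂(P i) := by
  have h := lintegral_prod_eq_prod_lintegral_of_indepFun s
    (fun i (ω : (i : ι) → Ω i) => f i (ω i))
    (iIndepFun_infinitePi (P := P) hf)
    (fun i => (hf i).comp (measurable_pi_apply (X := Ω) i))
  rw [h]
  refine Finset.prod_congr rfl fun i _ => ?_
  exact (measurePreserving_eval_infinitePi P i).lintegral_comp (hf i)

/-- The generating function of the Poisson distribution. -/
theorem poisson_gen (r : NNReal) (c : ENNReal) (hc : c ≤ 1) :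
    ∫⁻ n, c ^ n ∂(poissonMeasure r) =
      ENNReal.ofReal (Real.exp (-((r : ℝ) * (1 - c.toReal)))) := by
  have hct : c ≠ ⊤ := ne_top_of_le_ne_top ENNReal.one_ne_top hc
  have hc0 : (0 : ℝ) ≤ c.toReal := ENNReal.toReal_nonneg
  rw [lintegral_countable']
  have h1 : ∀ n : ℕ, c ^ n * poissonMeasure r {n} =
      ENNReal.ofReal (Real.exp (-(r : ℝ)) * (((r : ℝ) * c.toReal) ^ n / n.factorial)) := by
    intro n
    rw [poissonMeasure_singleton]
    have h2 : c ^ n = ENNReal.ofReal (c.toReal ^ n) := by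
      rw [ENNReal.ofReal_pow hc0, ENNReal.ofReal_toReal hct]
    rw [h2, ← ENNReal.ofReal_mul (by positivity)]
    congr 1
    rw [mul_pow]
    ring
  rw [tsum_congr h1]
  have hs : HasSum (fun n : ℕ => Real.exp (-(r : ℝ)) * (((r : ℝ) * c.toReal) ^ n / n.factorial))
      (Real.exp (-(r : ℝ)) * Real.exp ((r : ℝ) * c.toReal)) := by
    refine HasSum.mul_left _ ?_
    have := NormedSpace.expSeries_div_hasSum_exp ((r : ℝ) * c.toReal)
    rw [← Real.exp_eq_exp_ℝ] at this
    exact this
  rw [← ENNReal.ofReal_tsum_of_nonneg (fun n => by positivity) hs.summable, hs.tsum_eq,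
    ← Real.exp_add]
  congr 2
  ring

/-- One cell. -/
theorem one_cell {M : Type} [MeasurableSpace M] (μ : Measure M) [IsProbabilityMeasure μ]
    (r : NNReal) (g : M → ENNReal) (hg : Measurable g) (hg1 : ∀ m, g m ≤ 1) :
    ∫⁻ x : ℕ × (ℕ → M), ∏ j ∈ Finset.range x.1, g (x.2 j)
      ∂((poissonMeasure r).prod (Measure.infinitePi (fun _ => μ))) =
      ENNReal.ofReal (Real.exp (-((r : ℝ) * (1 - (∫⁻ m, g m ∂μ).toReal)))) := by
  have hm : Measurable (fun x : ℕ × (ℕ → M) => ∏ j ∈ Finset.range x.1, g (x.2 j)) := by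
    refine measurable_from_prod_countable_right fun n => ?_
    have h := Finset.measurable_fun_prod (f := fun (j : ℕ) (y : ℕ → M) => g (y j))
      (Finset.range n) fun j _ => hg.comp (measurable_pi_apply j)
    exact h
  rw [lintegral_prod _ hm.aemeasurable]
  have h1 : ∀ n : ℕ, ∫⁻ y : ℕ → M, ∏ j ∈ Finset.range n, g (y j)
      ∂(Measure.infinitePi (fun _ => μ)) = (∫⁻ m, g m ∂μ) ^ n := by
    intro n
    rw [lint_prod (fun _ : ℕ => μ) (Finset.range n) (fun _ => g) (fun _ => hg),
      Finset.prod_const, Finset.card_range]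
  rw [lintegral_congr h1]
  refine poisson_gen r _ ?_
  calc ∫⁻ m, g m ∂μ ≤ ∫⁻ _, 1 ∂μ := lintegral_mono hg1
    _ = 1 := by simp

/-- LF: the Laplace functional. -/
theorem lf : LfStmt := by
  intro k lam s hlam Z g hg hg1
  unfold confLaw
  have hm : ∀ z : Pt k, Measurable (fun x : ℕ × (ℕ → Mk k) =>
      ∏ j ∈ Finset.range x.1, g z (x.2 j)) := fun z => by
    refine measurable_from_prod_countable_right fun n => ?_
    have h := Finset.measurable_fun_prod (f := fun (j : ℕ) (y : ℕ → Mk k) => g z (y j))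
      (Finset.range n) fun j _ => (hg z).comp (measurable_pi_apply j)
    exact h
  rw [lint_prod (fun _ : Pt k => (poissonMeasure (Real.toNNReal lam)).prod
    (Measure.infinitePi (fun _ => markLaw k s))) Z
    (fun z x => ∏ j ∈ Finset.range x.1, g z (x.2 j)) hm]
  refine Finset.prod_congr rfl fun z _ => ?_
  rw [one_cell (markLaw k s) _ (g z) (hg z) (hg1 z), Real.coe_toNNReal lam hlam]

end Pool.Agent.TP.H76
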