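import Pool.Agent.Helper28_TP.StS

/-! Module STO of squad TP: the state after a step, and the stopping property. -/

set_option autoImplicit false

namespace Pool.Agent.TP.H76

open Pool.Agent.TP

variable {k : ℕ} {N : Finset (Pt k)} {W : Finset (Pt k)} {ℓ : ℕ} {s : St k}
  {A B : Finset (Pt k × ℕ)}

theorem mem_opAt {v : Pt k} : v ∈ opAt W ℓ s A ↔
    (v ∈ W ∧ v ∉ s.R) ∧ ((v, ℓ) ∈ A ∨ (v ∉ s.E ∧ (v, 0) ∈ A)) := by
  simp [opAt]

theorem mem_nR {v : Pt k} : v ∈ nR N W ℓ s A ↔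
    v ∈ s.R ∨ (v ∈ opAt W ℓ s A ∧ ∃ r ∈ s.R, Conn N ↑(opAt W ℓ s A) r v) := by
  simp [nR]

theorem mem_nB {v : Pt k} : v ∈ nB N W ℓ s A ↔
    (v ∈ W ∧ v ∉ nR N W ℓ s A) ∧ ∃ u ∈ nR N W ℓ s A, v - u ∈ N := by
  simp [nB]

theorem mem_rv {v : Pt k} : v ∈ rv N W ℓ s A ↔
    (v ∈ nR N W ℓ s A ∧ v ∉ s.R) ∨ v ∈ nB N W ℓ s A := by
  simp [rv]

theorem R_sub {v : Pt k} (h : v ∈ s.R) : v ∈ nR N W ℓ s A := mem_nR.2 (Or.inl h)

theorem nR_of_conn {r v : Pt k} (hr : r ∈ s.R) (h : Conn N ↑(opAt W ℓ s A) r v) :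
    v ∈ nR N W ℓ s A := by
  rcases Relation.ReflTransGen.cases_tail h with h1 | ⟨c, hc, h1⟩
  · rw [h1]; exact R_sub hr
  · exact mem_nR.2 (Or.inr ⟨Finset.mem_coe.1 h1.2, r, hr, h⟩)

theorem conn_nR {r v : Pt k} (hr : r ∈ s.R) (h : Conn N ↑(opAt W ℓ s A) r v) :
    Conn N ↑(nR N W ℓ s A) r v := by
  unfold Conn at h
  induction h with
  | refl => exact Relation.ReflTransGen.refl
  | @tail b c hb hbc ih =>
    refine Relation.ReflTransGen.tail ih ⟨hbc.1, Finset.mem_coe.2 ?_⟩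
    exact nR_of_conn hr (Relation.ReflTransGen.tail hb hbc)

theorem nR_step {u v : Pt k} (hu : u ∈ nR N W ℓ s A) (huv : v - u ∈ N)
    (hv : v ∈ opAt W ℓ s A) : v ∈ nR N W ℓ s A := by
  rcases mem_nR.1 hu with h | ⟨_, r, hr, h⟩
  · exact nR_of_conn h (Relation.ReflTransGen.single ⟨huv, Finset.mem_coe.2 hv⟩)
  · exact nR_of_conn hr (Relation.ReflTransGen.tail h ⟨huv, Finset.mem_coe.2 hv⟩)

theorem rv_W {v : Pt k} (h : v ∈ rv N W ℓ s A) : v ∈ W := by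
  rcases mem_rv.1 h with ⟨h1, h2⟩ | h1
  · rcases mem_nR.1 h1 with h3 | ⟨h3, _⟩
    · exact absurd h3 h2
    · exact (mem_opAt.1 h3).1.1
  · exact (mem_nB.1 h1).1.1

theorem rv_not_R {v : Pt k} (h : v ∈ s.R) : v ∉ rv N W ℓ s A := by
  intro h1
  rcases mem_rv.1 h1 with ⟨_, h2⟩ | h2
  · exact h2 h
  · exact (mem_nB.1 h2).1.2 (R_sub h)

theorem sto : StoStmt := by
  intro k N ρ p ε K W ℓ s _ hs hl1 hlK
  refine ⟨fun A => ⟨⟨?_, ?_, ?_⟩, ?_, ?_, ?_, ?_, ?_, ?_⟩, fun A B hAB => ?_⟩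
  · -- free
    intro v hR hE j
    have hR' : v ∉ nR N W ℓ s A := hR
    have hE' : v ∉ (s.E \ nR N W ℓ s A) ∪ nB N W ℓ s A := hE
    rw [Finset.mem_union, not_or, Finset.mem_sdiff, not_and_or, not_not] at hE'
    have h1 : v ∉ s.E := hE'.1.resolve_right hR'
    have h2 : v ∉ s.R := fun h => hR' (R_sub h)
    have h3 : v ∉ rv N W ℓ s A := by
      rw [mem_rv, not_or]
      exact ⟨fun h => hR' h.1, hE'.2⟩
    change (if (v, j).1 ∈ rv N W ℓ s A ∧ _ then _ else s.q (v, j)) = _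
    rw [if_neg (fun h => h3 h.1)]
    exact hs.free v h2 h1 j
  · -- opn
    intro v hv
    rcases mem_nR.1 hv with h | ⟨h, hr⟩
    · obtain ⟨j, hj, hq⟩ := hs.opn v h
      refine ⟨j, hj, ?_⟩
      change (if (v, j).1 ∈ rv N W ℓ s A ∧ _ then _ else s.q (v, j)) = _
      rw [if_neg (fun h' => rv_not_R h h'.1)]
      exact hq
    · have h1 := mem_opAt.1 h
      have h2 : v ∈ rv N W ℓ s A := mem_rv.2 (Or.inl ⟨hv, h1.1.2⟩)
      rcases h1.2 with h3 | ⟨h3, h4⟩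
      · refine ⟨ℓ, hlK, ?_⟩
        change (if (v, ℓ).1 ∈ rv N W ℓ s A ∧ ((v, ℓ).2 = ℓ ∨ _) then (if (v, ℓ) ∈ A then (1 : ℝ)
          else 0) else s.q (v, ℓ)) = _
        rw [if_pos ⟨h2, Or.inl rfl⟩, if_pos h3]
      · refine ⟨0, Nat.zero_le _, ?_⟩
        change (if (v, 0).1 ∈ rv N W ℓ s A ∧ ((v, 0).2 = ℓ ∨ ((v, 0).2 = 0 ∧ (v, 0).1 ∉ s.E)) then
          (if (v, 0) ∈ A then (1 : ℝ) else 0) else s.q (v, 0)) = _
        rw [if_pos ⟨h2, Or.inr ⟨rfl, h3⟩⟩, if_pos h4]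
  · -- val
    intro v j
    change (if _ then (if (v, j) ∈ A then (1 : ℝ) else 0) else s.q (v, j)) = 0 ∨
      (if _ then (if (v, j) ∈ A then (1 : ℝ) else 0) else s.q (v, j)) = 1 ∨
      (if _ then (if (v, j) ∈ A then (1 : ℝ) else 0) else s.q (v, j)) = q0 p ε (v, j)
    by_cases hc : ((v, j).1 ∈ rv N W ℓ s A ∧ ((v, j).2 = ℓ ∨ ((v, j).2 = 0 ∧ (v, j).1 ∉ s.E)))
    · rw [if_pos hc]
      by_cases hA : (v, j) ∈ A
      · right; left; rw [if_pos hA]
      · left; rw [if_neg hA]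
    · rw [if_neg hc]
      exact hs.val v j
  · exact fun v hv => R_sub hv
  · -- cov
    intro v hv
    rw [Finset.mem_union, Finset.mem_union]
    rcases Finset.mem_union.1 hv with h | h
    · rcases mem_nR.1 h with h1 | ⟨h1, _⟩
      · exact Or.inl (Or.inl h1)
      · exact Or.inr (mem_opAt.1 h1).1.1
    · rcases Finset.mem_union.1 h with h1 | h1
      · exact Or.inl (Or.inr (Finset.mem_sdiff.1 h1).1)
      · exact Or.inr (mem_nB.1 h1).1.1
  · -- covR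
    intro v hv
    rcases mem_nR.1 hv with h1 | ⟨h1, _⟩
    · exact Finset.mem_union.2 (Or.inl h1)
    · exact Finset.mem_union.2 (Or.inr (mem_opAt.1 h1).1.1)
  · -- keep
    intro v j hne
    by_cases hc : ((v, j).1 ∈ rv N W ℓ s A ∧ ((v, j).2 = ℓ ∨ ((v, j).2 = 0 ∧ (v, j).1 ∉ s.E)))
    · refine ⟨rv_W hc.1, ?_⟩
      rcases hc.2 with h | h
      · exact Or.inr h
      · exact Or.inl h.1
    · exfalso
      apply hne
      change (if _ then (if (v, j) ∈ A then (1 : ℝ) else 0) else s.q (v, j)) = s.q (v, j)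
      rw [if_neg hc]
  · -- conn
    intro x hx
    rcases mem_nR.1 hx with h | ⟨_, r, hr, h⟩
    · exact ⟨x, h, Relation.ReflTransGen.refl⟩
    · exact ⟨r, hr, conn_nR hr h⟩
  · -- adj
    intro v hv
    rcases Finset.mem_union.1 hv with h | h
    · exact Or.inl (Finset.mem_sdiff.1 h).1
    · exact Or.inr (mem_nB.1 h).2
  · -- stopping
    have agree : ∀ v ∈ rv N W ℓ s A, (v ∈ opAt W ℓ s B ↔ v ∈ opAt W ℓ s A) := by
      intro v hv
      obtain ⟨h1, h2⟩ := hAB v hv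
      rw [mem_opAt, mem_opAt, h1]
      by_cases hE : v ∈ s.E
      · simp [hE]
      · rw [h2 hE]
    have sub1 : ∀ r ∈ s.R, ∀ y, Conn N ↑(opAt W ℓ s B) r y → y ∈ nR N W ℓ s A := by
      intro r hr y h
      unfold Conn at h
      induction h with
      | refl => exact R_sub hr
      | @tail b c hb hbc ih =>
        by_contra hc
        have h1 : c ∈ opAt W ℓ s B := Finset.mem_coe.1 hbc.2
        have h2 : c ∈ rv N W ℓ s A :=
          mem_rv.2 (Or.inr (mem_nB.2 ⟨⟨(mem_opAt.1 h1).1.1, hc⟩, b, ih, hbc.1⟩))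
        exact hc (nR_step ih hbc.1 ((agree c h2).1 h1))
    have sub2 : ∀ r ∈ s.R, ∀ y, Conn N ↑(opAt W ℓ s A) r y → Conn N ↑(opAt W ℓ s B) r y := by
      intro r hr y h
      unfold Conn at h
      induction h with
      | refl => exact Relation.ReflTransGen.refl
      | @tail b c hb hbc ih =>
        refine Relation.ReflTransGen.tail ih ⟨hbc.1, Finset.mem_coe.2 ?_⟩
        have h1 : c ∈ opAt W ℓ s A := Finset.mem_coe.1 hbc.2
        have h2 : c ∈ nR N W ℓ s A := nR_of_conn hr (Relation.ReflTransGen.tail hb hbc)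
        have h3 : c ∈ rv N W ℓ s A := mem_rv.2 (Or.inl ⟨h2, (mem_opAt.1 h1).1.2⟩)
        exact (agree c h3).2 h1
    have h : nR N W ℓ s B = nR N W ℓ s A := by
      ext x
      constructor
      · intro hx
        rcases mem_nR.1 hx with h | ⟨_, r, hr, h⟩
        · exact R_sub h
        · exact sub1 r hr x h
      · intro hx
        rcases mem_nR.1 hx with h | ⟨_, r, hr, h⟩
        · exact R_sub h
        · exact nR_of_conn hr (sub2 r hr x h)
    refine ⟨h, ?_⟩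
    simp only [rv, nB, h]

end Pool.Agent.TP.H76
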